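import Pool.Agent.Helper73.F2.St
import Pool.Agent.Helper88.SCN.Constel

/-! # Project F2 (MP_7b75b3_co), module IT -/

set_option autoImplicit false

namespace Pool.Agent.Helper41.F2

open _root_.F2 Finset

theorem hIT : StIT := by
  classical
  intro V κ _ _ _ _ G b hD hF hT
  by_contra hcon
  have hS : Pool.Agent.Helper88.SCN.Sys b (fun x y => G.Adj x y) :=
    ⟨fun x y h => h.symm, fun x y h => hT.1 x y h⟩
  have hno : ¬ ∃ T : κ → V, Pool.Agent.Helper88.SCN.IsIT b (fun x y => G.Adj x y) T ∧
      ∀ i, T i ∈ (univ : Finset V) := by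
    rintro ⟨T, h1, -⟩
    exact hcon ⟨T, h1⟩
  obtain ⟨I, X, Y, hI, -, -, -, hY, hX, hz⟩ := Pool.Agent.Helper88.SCN.constel hS univ hno
  -- number of the vertices in the blocks of `I`
  have h1 : (univ.filter (fun v => b v ∈ I)).card = 4 * I.card := by
    rw [card_eq_sum_card_fiberwise (f := b) (s := univ.filter (fun v => b v ∈ I)) (t := I)
      (fun v hv => by simpa using hv)]
    rw [sum_congr rfl (g := fun _ => 4)]
    · rw [sum_const, smul_eq_mul, mul_comm]
    · intro i hi
      rw [← hF i]
      congr 1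
      ext v
      simp only [mem_filter, mem_univ, true_and]
      constructor
      · exact fun h => h.2
      · exact fun h => ⟨h ▸ hi, h⟩
  have h2 : univ.filter (fun v => b v ∈ I) ⊆ (X ∪ Y).biUnion (fun x => univ.filter (G.Adj x)) := by
    intro v hv
    obtain ⟨x, hx, hxv⟩ := hz v (mem_univ v) (mem_filter.1 hv).2
    have hx2 : x ∈ X ∨ x ∈ Y := by
      classical
      exact (@Finset.mem_union V (fun a b => Classical.propDecidable (a = b)) X Y x).1 hx
    exact mem_biUnion.2 ⟨x, mem_union.2 hx2, mem_filter.2 ⟨mem_univ _, hxv⟩⟩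
  have h3 : ∀ x, (univ.filter (G.Adj x)).card ≤ 2 := by
    intro x
    by_contra h
    rw [not_le, two_lt_card] at h
    obtain ⟨p, hp, q, hq, r, hr, hpq, hpr, hqr⟩ := h
    simp only [mem_filter, mem_univ, true_and] at hp hq hr
    rcases hD x p q r hp hq hr with h | h | h
    · exact hpq h
    · exact hpr h
    · exact hqr h
  have h4 := card_le_card h2
  have h5 : ((X ∪ Y).biUnion (fun x => univ.filter (G.Adj x))).card ≤ (X ∪ Y).card * 2 :=
    card_biUnion_le_card_mul _ _ _ fun x _ => h3 x
  have h6 : (X ∪ Y).card ≤ X.card + Y.card := card_union_le _ _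
  omega

end Pool.Agent.Helper41.F2
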